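import Pool.Agent.Lib.MP_6bc78b_nt.MS.GL.Iface
import Pool.Agent.Lib.MP_6bc78b_nt.MS.P1.PT.Err

/-! Project MS, Part GL, module EGA (helper76): the Gamma part of the explicit formula. -/

set_option autoImplicit false

open Complex Filter Topology MeasureTheory ArithmeticFunction

namespace Pool.Agent.Lib.MP_6bc78b_nt.MS.GL.H76

open Pool.Agent.Lib.MP_6bc78b_nt Pool.Agent.Lib.MP_6bc78b_nt.LL Pool.Agent.Lib.MP_6bc78b_nt.H11
  Pool.Agent.Lib.MP_6bc78b_nt.MS Pool.Agent.Lib.MP_6bc78b_nt.MS.P1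
  Pool.Agent.Lib.MP_6bc78b_nt.MS.P1.PT Pool.Agent.Lib.MP_6bc78b_nt.MS.GL

/-- size of the error factor. -/
lemma ega_size {δ T l y a K M : ℝ} (hδ : 0 < δ) (ha : a = 1 - δ / 2) (hT : 6 ≤ T)
    (hl0 : 0 < l) (hl : l ≤ (1 - δ) * Real.log T) (hδ1 : δ < 1) (hy1 : T / 2 < y)
    (hy2 : y < 2 * T) (hK : 0 < K) (hM : 0 ≤ M) :
    K * Real.log y * y ^ (-a) * (8 * M * (1 + l) * Real.exp l) ≤
      K * (8 / δ) * (1 + 4 / δ) * 16 * M := by
  have hT0 : 0 < T := by linarith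
  have hy0 : 0 < y := by linarith
  have ha0 : 0 < a := by rw [ha]; linarith
  have hlogT0 : 0 < Real.log T := Real.log_pos (by linarith)
  have hTl : Real.exp l ≤ T ^ (1 - δ) := by
    rw [Real.rpow_def_of_pos hT0]
    apply Real.exp_le_exp.2
    linarith [mul_comm (Real.log T) (1 - δ)]
  have h2 : y ^ (-a) ≤ 2 * T ^ (-a) := by
    have h3 : y ^ (-a) ≤ (T / 2) ^ (-a) :=
      Real.rpow_le_rpow_of_nonpos (by linarith) hy1.le (by linarith)
    have h4 : (T / 2) ^ (-a) = 2 ^ a * T ^ (-a) := by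
      rw [Real.div_rpow hT0.le (by norm_num), Real.rpow_neg (by norm_num : (0:ℝ) ≤ 2)]
      field_simp
    have h5 : (2:ℝ) ^ a ≤ 2 := by
      calc (2:ℝ) ^ a ≤ 2 ^ (1:ℝ) :=
            Real.rpow_le_rpow_of_exponent_le (by norm_num) (by rw [ha]; linarith)
        _ = 2 := Real.rpow_one 2
    rw [h4] at h3
    refine h3.trans ?_
    have := Real.rpow_pos_of_pos hT0 (-a)
    gcongr
  have h7 := Real.rpow_pos_of_pos hT0 (δ / 4)
  have h3 : Real.log y ≤ 8 / δ * T ^ (δ / 4) := by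
    have h4 : Real.log y ≤ y ^ (δ / 4) / (δ / 4) := Real.log_le_rpow_div hy0.le (by linarith)
    have h5 : y ^ (δ / 4) ≤ (2 * T) ^ (δ / 4) := Real.rpow_le_rpow hy0.le hy2.le (by linarith)
    rw [Real.mul_rpow (by norm_num) hT0.le] at h5
    have h6 : (2:ℝ) ^ (δ / 4) ≤ 2 := by
      calc (2:ℝ) ^ (δ / 4) ≤ 2 ^ (1:ℝ) :=
            Real.rpow_le_rpow_of_exponent_le (by norm_num) (by linarith)
        _ = 2 := Real.rpow_one 2
    calc Real.log y ≤ y ^ (δ / 4) / (δ / 4) := h4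
      _ ≤ (2 * T ^ (δ / 4)) / (δ / 4) := by
          gcongr
          refine h5.trans ?_
          gcongr
      _ = _ := by field_simp; ring
  have h4 : 1 + l ≤ (1 + 4 / δ) * T ^ (δ / 4) := by
    have h5 : Real.log T ≤ T ^ (δ / 4) / (δ / 4) := Real.log_le_rpow_div hT0.le (by linarith)
    have h6 : 1 ≤ T ^ (δ / 4) := Real.one_le_rpow (by linarith) (by linarith)
    have h8 : l ≤ Real.log T := hl.trans (by nlinarith)
    have h9 : T ^ (δ / 4) / (δ / 4) = 4 / δ * T ^ (δ / 4) := by field_simp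
    rw [h9] at h5
    linarith
  have h8 := Real.rpow_pos_of_pos hT0 (-a)
  have h9 := Real.rpow_pos_of_pos hT0 (1 - δ)
  have h10 := Real.rpow_pos_of_pos hy0 (-a)
  have hlogy : 0 ≤ Real.log y := Real.log_nonneg (by linarith)
  have h11 : T ^ (δ / 4) * T ^ (δ / 4) * T ^ (-a) * T ^ (1 - δ) = 1 := by
    rw [← Real.rpow_add hT0, ← Real.rpow_add hT0, ← Real.rpow_add hT0]
    rw [show δ / 4 + δ / 4 + -a + (1 - δ) = 0 by rw [ha]; ring, Real.rpow_zero]
  calc K * Real.log y * y ^ (-a) * (8 * M * (1 + l) * Real.exp l)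
      ≤ K * (8 / δ * T ^ (δ / 4)) * (2 * T ^ (-a)) *
        (8 * M * ((1 + 4 / δ) * T ^ (δ / 4)) * T ^ (1 - δ)) := by
        gcongr
    _ = K * (8 / δ) * (1 + 4 / δ) * 16 * M *
        (T ^ (δ / 4) * T ^ (δ / 4) * T ^ (-a) * T ^ (1 - δ)) := by ring
    _ = _ := by rw [h11, mul_one]

/-- the constant near `(1/2) log y`. -/
lemma cst_re {y : ℝ} (hy : 3 ≤ y) :
    |((1 / 2) * (log ((3 / 2 : ℝ) + y * I) - (Real.log (2 * Real.pi) : ℂ)) : ℂ).re -
      1 / 2 * Real.log y| ≤ 1 + Real.log (2 * Real.pi) := by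
  have hy0 : 0 < y := by linarith
  have hwre : ((3 / 2 : ℝ) + y * I : ℂ).re = 3 / 2 := by simp
  have hwim : ((3 / 2 : ℝ) + y * I : ℂ).im = y := by simp
  have e : ((1 / 2) * (log ((3 / 2 : ℝ) + y * I) - (Real.log (2 * Real.pi) : ℂ)) : ℂ).re =
      (1 / 2) * (Real.log ‖((3 / 2 : ℝ) + y * I : ℂ)‖ - Real.log (2 * Real.pi)) := by
    rw [show (1 / 2 : ℂ) = ((1 / 2 : ℝ) : ℂ) by push_cast; ring, Complex.re_ofReal_mul,
      Complex.sub_re, Complex.log_re, Complex.ofReal_re]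
  rw [e]
  have h1 : ‖((3 / 2 : ℝ) + y * I : ℂ)‖ ≤ 3 / 2 * y := by
    have h2 := Complex.norm_le_abs_re_add_abs_im ((3 / 2 : ℝ) + y * I : ℂ)
    rw [hwre, hwim, abs_of_pos hy0, abs_of_pos (by norm_num)] at h2
    linarith
  have h3 : y ≤ ‖((3 / 2 : ℝ) + y * I : ℂ)‖ := by
    have h2 := Complex.abs_im_le_norm ((3 / 2 : ℝ) + y * I : ℂ)
    rwa [hwim, abs_of_pos hy0] at h2
  have h4 := Real.log_le_log (by linarith : 0 < ‖((3 / 2 : ℝ) + y * I : ℂ)‖) h1
  rw [Real.log_mul (by norm_num) hy0.ne'] at h4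
  have h5 := Real.log_le_log hy0 h3
  have h6 : Real.log (3 / 2) ≤ 1 / 2 := by
    have := Real.log_le_sub_one_of_pos (by norm_num : (0 : ℝ) < 3 / 2)
    linarith
  have h7 : 0 ≤ Real.log (2 * Real.pi) := by
    apply Real.log_nonneg
    have := Real.pi_gt_three
    linarith
  rw [abs_le]
  constructor <;> linarith

/-- EGA. -/
theorem ega (h1 : KphStatement) (h2 : KinStatement) : EgaStatement := by
  intro δ hδ hδ1
  obtain ⟨a, ha'⟩ : ∃ a, a = 1 - δ / 2 := ⟨_, rfl⟩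
  have ha : 0 < a := by rw [ha']; linarith
  have ha1 : a < 1 := by rw [ha']; linarith
  obtain ⟨K, hK, hKb⟩ := gam_diff ha ha1
  obtain ⟨J, hJ⟩ : ∃ J : ℝ, J = ∫ x : ℝ, (1 + |x|) ^ a / (1 + x ^ 2) := ⟨_, rfl⟩
  have hJ0 : 0 ≤ J := by rw [hJ]; apply integral_nonneg; intro x; positivity
  have hpi := Real.pi_pos
  have hl2 : 0 ≤ Real.log (2 * Real.pi) := by
    apply Real.log_nonneg
    have := Real.pi_gt_three
    linarith
  refine ⟨K * (8 / δ) * (1 + 4 / δ) * 16 * J + Real.pi * (1 + Real.log (2 * Real.pi)),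
    by positivity, ?_⟩
  intro T lam M y φ hT hlam hlam1 hy1 hy2 hφ
  have hT0 : 0 < T := by linarith
  have hlogT0 : 0 < Real.log T := Real.log_pos (by linarith)
  obtain ⟨l, hl'⟩ : ∃ l, l = lam * Real.log T := ⟨_, rfl⟩
  rw [← hl'] at hlam hφ ⊢
  have hl : 0 < l := by linarith
  have hl1 : l ≤ (1 - δ) * Real.log T := by
    rw [hl']
    exact mul_le_mul_of_nonneg_right hlam1 hlogT0.le
  have hy3 : 3 ≤ y := by linarith
  have hy0 : 0 < y := by linarith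
  have hlogy : 0 ≤ Real.log y := Real.log_nonneg (by linarith)
  have hM0 : |φ 0| ≤ M := (hφ.2.2 0 le_rfl hl.le).1
  have hM : 0 ≤ M := (abs_nonneg _).trans hM0
  obtain ⟨k1, k2, -, -⟩ := h1 l M φ hl hφ
  obtain ⟨m1, m2⟩ := h2 l M φ hl hφ
  obtain ⟨c, hc⟩ : ∃ c : ℂ, c = (1 / 2) * (log ((3 / 2 : ℝ) + y * I) -
      (Real.log (2 * Real.pi) : ℂ)) := ⟨_, rfl⟩
  have hKi : Integrable (fun t : ℝ => kp φ l (1 + ((t - y : ℝ) : ℂ) * I)) :=
    m1.comp_sub_right y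
  have hKc : Continuous (fun t : ℝ => kp φ l (1 + ((t - y : ℝ) : ℂ) * I)) :=
    k1.continuous.comp (by fun_prop)
  have hKint : ∫ t : ℝ, kp φ l (1 + ((t - y : ℝ) : ℂ) * I) = ((Real.pi * φ 0 : ℝ) : ℂ) := by
    have h := m2 0 le_rfl
    rw [if_pos hl.le] at h
    rw [← h, ← integral_sub_right_eq_self (fun x : ℝ => Complex.exp (-((0:ℝ) : ℂ) *
      (1 + x * I)) * kp φ l (1 + x * I)) y]
    congr 1
    funext x
    simp
  obtain ⟨N, hN⟩ : ∃ N : ℝ, N = K * Real.log y * y ^ (-a) *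
    (8 * M * (1 + l) * Real.exp l) := ⟨_, rfl⟩
  have hb : ∀ t : ℝ, ‖(gPart ((3 / 2 : ℝ) + t * I) - c) * kp φ l (1 + ((t - y : ℝ) : ℂ) * I)‖ ≤
      N * ((1 + |t - y|) ^ a / (1 + (t - y) ^ 2)) := by
    intro t
    rw [norm_mul]
    have g1 := hKb y hy3 t
    rw [← hc] at g1
    have g2 := k2 (1 + ((t - y : ℝ) : ℂ) * I) (by simp)
    have hty := abs_nonneg (t - y)
    have g3 : ((1 + |t - y|) / y) ^ a = y ^ (-a) * (1 + |t - y|) ^ a := by
      rw [Real.div_rpow (by linarith) hy0.le, Real.rpow_neg hy0.le]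
      ring
    rw [g3] at g1
    have e1 : (1 + ((t - y : ℝ) : ℂ) * I : ℂ).im = t - y := by simp
    rw [e1] at g2
    have h4 : 0 < (1 + |t - y|) ^ a := Real.rpow_pos_of_pos (by linarith) a
    have h5 : 0 < y ^ (-a) := Real.rpow_pos_of_pos hy0 _
    calc ‖gPart ((3 / 2 : ℝ) + t * I) - c‖ * ‖kp φ l (1 + ((t - y : ℝ) : ℂ) * I)‖
        ≤ (K * Real.log y * (y ^ (-a) * (1 + |t - y|) ^ a)) *
          (8 * M * (1 + l) * Real.exp l / (1 + (t - y) ^ 2)) :=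
          mul_le_mul g1 g2 (norm_nonneg _) (by positivity)
      _ = _ := by rw [hN]; ring
  have hai := (int_a ha ha1).comp_sub_right y
  have hEi : Integrable (fun t : ℝ => (gPart ((3 / 2 : ℝ) + t * I) - c) *
      kp φ l (1 + ((t - y : ℝ) : ℂ) * I)) := by
    refine (hai.const_mul N).mono' ?_ (Eventually.of_forall hb)
    exact ((gPart_line_cont.sub continuous_const).mul hKc).aestronglyMeasurable
  have hci : Integrable (fun t : ℝ => c * kp φ l (1 + ((t - y : ℝ) : ℂ) * I)) := hKi.const_mul c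
  have esum : (fun t : ℝ => gPart ((3 / 2 : ℝ) + t * I) * kp φ l (1 + ((t - y : ℝ) : ℂ) * I)) =
      fun t : ℝ => c * kp φ l (1 + ((t - y : ℝ) : ℂ) * I) + (gPart ((3 / 2 : ℝ) + t * I) - c) *
      kp φ l (1 + ((t - y : ℝ) : ℂ) * I) := by
    funext t; ring
  rw [esum]
  refine ⟨hci.add hEi, ?_⟩
  rw [integral_add hci hEi, integral_const_mul, hKint, Complex.add_re, Complex.re_mul_ofReal]
  have hEre : |(∫ t : ℝ, (gPart ((3 / 2 : ℝ) + t * I) - c) *
      kp φ l (1 + ((t - y : ℝ) : ℂ) * I)).re| ≤ N * J := by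
    have g1 := norm_integral_le_of_norm_le (hai.const_mul N) (Eventually.of_forall hb)
    rw [integral_const_mul] at g1
    have g2 : ∫ t : ℝ, (1 + |t - y|) ^ a / (1 + (t - y) ^ 2) = J := by
      rw [hJ]
      exact integral_sub_right_eq_self (fun x : ℝ => (1 + |x|) ^ a / (1 + x ^ 2)) y
    rw [g2] at g1
    exact (Complex.abs_re_le_norm _).trans g1
  have hNb : N * J ≤ K * (8 / δ) * (1 + 4 / δ) * 16 * M * J := by
    rw [hN]
    exact mul_le_mul_of_nonneg_right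
      (ega_size hδ ha' hT hl hl1 hδ1 hy1 hy2 hK hM) hJ0
  have hcb := cst_re hy3
  rw [← hc] at hcb
  have hmain : |c.re * (Real.pi * φ 0) - Real.pi / 2 * Real.log y * φ 0| ≤
      Real.pi * (1 + Real.log (2 * Real.pi)) * M := by
    have e : c.re * (Real.pi * φ 0) - Real.pi / 2 * Real.log y * φ 0 =
        Real.pi * (c.re - 1 / 2 * Real.log y) * φ 0 := by ring
    rw [e, abs_mul, abs_mul, abs_of_pos hpi]
    have := abs_nonneg (φ 0)
    gcongr
  have e : c.re * (Real.pi * φ 0) + (∫ t : ℝ, (gPart ((3 / 2 : ℝ) + t * I) - c) *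
      kp φ l (1 + ((t - y : ℝ) : ℂ) * I)).re - Real.pi / 2 * Real.log y * φ 0 =
      (c.re * (Real.pi * φ 0) - Real.pi / 2 * Real.log y * φ 0) +
      (∫ t : ℝ, (gPart ((3 / 2 : ℝ) + t * I) - c) *
      kp φ l (1 + ((t - y : ℝ) : ℂ) * I)).re := by ring
  rw [e]
  refine (abs_add_le _ _).trans ?_
  have e2 : (K * (8 / δ) * (1 + 4 / δ) * 16 * J + Real.pi * (1 + Real.log (2 * Real.pi))) * M =
      Real.pi * (1 + Real.log (2 * Real.pi)) * M + K * (8 / δ) * (1 + 4 / δ) * 16 * M * J := by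
    ring
  rw [e2]
  exact add_le_add hmain (hEre.trans hNb)

end Pool.Agent.Lib.MP_6bc78b_nt.MS.GL.H76
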