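import Pool.Agent.Lib.MP_6bc78b_nt.MS.GL.Iface
import Pool.Agent.Lib.MP_6bc78b_nt.MS.P5.H23.MVF

/-! Project MS, Part GL, module MV2 (helper76): mean values of polynomials of length below `T`
on the critical line (adapted from the module MVL of helper5). -/

set_option autoImplicit false

open Complex Filter Topology MeasureTheory ArithmeticFunction

namespace Pool.Agent.Lib.MP_6bc78b_nt.MS.GL.H76

open Pool.Agent.Lib.MP_6bc78b_nt.MS Pool.Agent.Lib.MP_6bc78b_nt.MS.P1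

/-- the integrand as a double sum. -/
lemma prod_eq (f g : ArithmeticFunction ℝ) (X T t : ℝ) :
    dpoly f X (1 / 2 + t * I) * (starRingEnd ℂ) (dpoly g X (1 / 2 + t * I)) *
      ((MS.wt T t : ℝ) : ℂ) =
      ∑ n ∈ Finset.Icc 1 ⌊X⌋₊, ∑ k ∈ Finset.Icc 1 ⌊X⌋₊, ((f n * g k / k : ℝ) : ℂ) *
        (WW T (((1 / 2 : ℝ) : ℂ) + t * I) * (k : ℂ) ^ (((1 / 2 : ℝ) : ℂ) + t * I) *
          (n : ℂ) ^ (-(((1 / 2 : ℝ) : ℂ) + t * I))) := by
  unfold dpoly
  rw [map_sum, Finset.sum_mul_sum, Finset.sum_mul]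
  refine Finset.sum_congr rfl fun n _ => ?_
  rw [Finset.sum_mul]
  refine Finset.sum_congr rfl fun k hk => ?_
  have hk0 : k ≠ 0 := by
    have := (Finset.mem_Icc.1 hk).1
    omega
  rw [map_mul, conj_ofReal, P5.H23.conj_cpow hk0, P5.H23.WW_half, P5.H23.half_cast]
  push_cast
  ring

/-- integrability of the integrand. -/
lemma prod_int (f g : ArithmeticFunction ℝ) (X : ℝ) {T : ℝ} (hD : 0 < DD T) :
    Integrable fun t : ℝ => dpoly f X (1 / 2 + t * I) *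
      (starRingEnd ℂ) (dpoly g X (1 / 2 + t * I)) * ((MS.wt T t : ℝ) : ℂ) := by
  have h1 : (fun t : ℝ => dpoly f X (1 / 2 + t * I) *
      (starRingEnd ℂ) (dpoly g X (1 / 2 + t * I)) * ((MS.wt T t : ℝ) : ℂ)) = _ :=
    funext fun t => prod_eq f g X T t
  rw [h1]
  refine integrable_finsetSum _ fun n hn => integrable_finsetSum _ fun k hk => ?_
  have hn0 : n ≠ 0 := by
    have := (Finset.mem_Icc.1 hn).1
    omega
  have hk0 : k ≠ 0 := by
    have := (Finset.mem_Icc.1 hk).1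
    omega
  exact (P5.H23.integrable_term hD hn0 hk0).const_mul _

/-- the mean value as a double sum of kernels. -/
lemma mean_eq (f g : ArithmeticFunction ℝ) (X : ℝ) {T : ℝ} (hD : 0 < DD T) :
    (1 / (2 * Real.pi) : ℂ) * ∫ t : ℝ, dpoly f X (1 / 2 + t * I) *
      (starRingEnd ℂ) (dpoly g X (1 / 2 + t * I)) * ((MS.wt T t : ℝ) : ℂ) =
      ∑ n ∈ Finset.Icc 1 ⌊X⌋₊, ∑ k ∈ Finset.Icc 1 ⌊X⌋₊, ((f n * g k / k : ℝ) : ℂ) *
        ((cG T : ℂ) * Complex.exp (-(1 / 2 + T * I) * Real.log ((n : ℝ) / k) -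
        (DD T) ^ 2 * (Real.log ((n : ℝ) / k)) ^ 2 / 4)) := by
  have h1 : ∀ t : ℝ, dpoly f X (1 / 2 + t * I) *
      (starRingEnd ℂ) (dpoly g X (1 / 2 + t * I)) * ((MS.wt T t : ℝ) : ℂ) = _ :=
    fun t => prod_eq f g X T t
  simp_rw [h1]
  rw [integral_finsetSum _ (fun n hn => ?_)]
  · rw [Finset.mul_sum]
    refine Finset.sum_congr rfl fun n hn => ?_
    have hn0 : n ≠ 0 := by
      have := (Finset.mem_Icc.1 hn).1
      omega
    rw [integral_finsetSum _ (fun k hk => ?_), Finset.mul_sum]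
    · refine Finset.sum_congr rfl fun k hk => ?_
      have hk0 : k ≠ 0 := by
        have := (Finset.mem_Icc.1 hk).1
        omega
      rw [integral_const_mul, ← EDG1.VI_quot GAU.gau (c := 1 / 2) hD hn0 hk0]
      unfold VI
      push_cast
      ring
    · have hk0 : k ≠ 0 := by
        have := (Finset.mem_Icc.1 hk).1
        omega
      exact (P5.H23.integrable_term hD hn0 hk0).const_mul _
  · have hn0 : n ≠ 0 := by
      have := (Finset.mem_Icc.1 hn).1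
      omega
    refine integrable_finsetSum _ fun k hk => ?_
    have hk0 : k ≠ 0 := by
      have := (Finset.mem_Icc.1 hk).1
      omega
    exact (P5.H23.integrable_term hD hn0 hk0).const_mul _

/-- one term of the double sum against its diagonal value. -/
lemma term_le {lam T : ℝ} (hT : 1 ≤ T) (hcG : 0 < cG T) (hcT : cG T ≤ T)
    (hexp : Real.exp (-(DD T ^ 2 * T ^ (-(2 * lam)) / 64)) ≤ T ^ (-(20 : ℝ)))
    {f g : ArithmeticFunction ℝ} (hf : ∀ n, |f n| ≤ T ^ (3 : ℝ))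
    (hg : ∀ n, |g n| ≤ T ^ (3 : ℝ)) {n k : ℕ}
    (hn : n ∈ Finset.Icc 1 ⌊T ^ lam⌋₊) (hk : k ∈ Finset.Icc 1 ⌊T ^ lam⌋₊) :
    ‖((f n * g k / k : ℝ) : ℂ) * ((cG T : ℂ) * Complex.exp (-(1 / 2 + T * I) *
      Real.log ((n : ℝ) / k) - (DD T) ^ 2 * (Real.log ((n : ℝ) / k)) ^ 2 / 4)) -
      (if n = k then ((cG T * (f n * g n / (n : ℝ)) : ℝ) : ℂ) else 0)‖ ≤
      T ^ (3 : ℝ) * T ^ (3 : ℝ) * T * T ^ (-(20 : ℝ)) := by
  have hT0 : 0 < T := by linarith
  rw [Finset.mem_Icc] at hn hk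
  have hn0 : n ≠ 0 := by omega
  have hk0 : k ≠ 0 := by omega
  have hn' : (1 : ℝ) ≤ n := by exact_mod_cast hn.1
  have hk' : (1 : ℝ) ≤ k := by exact_mod_cast hk.1
  have hpos : 0 ≤ T ^ (3 : ℝ) * T ^ (3 : ℝ) * T * T ^ (-(20 : ℝ)) := by positivity
  by_cases h : n = k
  · rw [if_pos h, h]
    have h1 : Real.log ((k : ℝ) / k) = 0 := by rw [div_self (by linarith), Real.log_one]
    rw [h1]
    have h2 : (-(1 / 2 + (T : ℂ) * I) * ((0 : ℝ) : ℂ) -
        (DD T : ℂ) ^ 2 * ((0 : ℝ) : ℂ) ^ 2 / 4) = 0 := by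
      push_cast; ring
    rw [h2, Complex.exp_zero]
    have h3 : ((f k * g k / k : ℝ) : ℂ) * ((cG T : ℂ) * 1) -
        ((cG T * (f k * g k / (k : ℝ)) : ℝ) : ℂ) = 0 := by
      push_cast; ring
    rw [h3, norm_zero]
    exact hpos
  · rw [if_neg h, sub_zero, norm_mul, Complex.norm_real, Real.norm_eq_abs,
      EDG1.norm_kernel hcG]
    set x := Real.log ((n : ℝ) / k) with hx
    have hlog := EDG1.log_quot hn0 hk0 h
    rw [← hx] at hlog
    have hkT : (k : ℝ) ≤ T ^ lam :=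
      (Nat.le_floor_iff (by positivity)).1 hk.2
    have hTd : 0 < T ^ lam := by positivity
    have h1 : 1 / (2 * T ^ lam) ≤ |x| :=
      (one_div_le_one_div_of_le (by linarith) (by linarith)).trans hlog
    have h2 : (1 / (2 * T ^ lam)) ^ 2 ≤ x ^ 2 := by
      rw [← sq_abs x]
      exact pow_le_pow_left₀ (by positivity) h1 2
    have h3 : T ^ (-(2 * lam)) = (1 / T ^ lam) ^ 2 := by
      have e1 : T ^ (2 * lam) = (T ^ lam) ^ 2 := by
        rw [← Real.rpow_natCast, ← Real.rpow_mul hT0.le]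
        congr 1
        push_cast
        ring
      rw [Real.rpow_neg hT0.le, e1, div_pow, one_pow, ← one_div]
    have h4 : DD T ^ 2 * T ^ (-(2 * lam)) / 64 ≤ DD T ^ 2 * x ^ 2 / 4 := by
      rw [h3]
      have h5 : (1 / (2 * T ^ lam)) ^ 2 = (1 / T ^ lam) ^ 2 / 4 := by
        field_simp
        norm_num
      rw [h5] at h2
      have h6 : 0 ≤ DD T ^ 2 := sq_nonneg _
      have h7 : 0 ≤ (1 / T ^ lam) ^ 2 := sq_nonneg _
      nlinarith
    have h8 : Real.exp (-(1 / 2) * x - DD T ^ 2 * x ^ 2 / 4) ≤ k * T ^ (-(20 : ℝ)) := by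
      have e1 : Real.exp (-(1 / 2) * x) ≤ k := by
        have e2 : -(1 / 2) * x ≤ Real.log k := by
          rw [hx, Real.log_div (by linarith) (by linarith)]
          have e3 : 0 ≤ Real.log n := Real.log_nonneg hn'
          have e4 : 0 ≤ Real.log k := Real.log_nonneg hk'
          linarith
        calc Real.exp (-(1 / 2) * x) ≤ Real.exp (Real.log k) := Real.exp_le_exp.2 e2
          _ = k := Real.exp_log (by linarith)
      have e5 : Real.exp (-(DD T ^ 2 * x ^ 2 / 4)) ≤ T ^ (-(20 : ℝ)) :=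
        (Real.exp_le_exp.2 (neg_le_neg h4)).trans hexp
      rw [sub_eq_add_neg, Real.exp_add]
      exact mul_le_mul e1 e5 (Real.exp_pos _).le (by linarith)
    have habs : |f n * g k / k| = |f n| * |g k| / k := by
      rw [abs_div, abs_mul, abs_of_pos (by linarith : (0 : ℝ) < k)]
    rw [habs]
    have hq : 0 ≤ |f n| * |g k| / k := by positivity
    calc |f n| * |g k| / k * (cG T * Real.exp (-(1 / 2) * x - DD T ^ 2 * x ^ 2 / 4))
        ≤ |f n| * |g k| / k * (T * (k * T ^ (-(20 : ℝ)))) := by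
          apply mul_le_mul_of_nonneg_left _ hq
          exact mul_le_mul hcT h8 (Real.exp_pos _).le hT0.le
      _ = |f n| * |g k| * T * T ^ (-(20 : ℝ)) := by
          have : (k : ℝ) ≠ 0 := by linarith
          field_simp
      _ ≤ T ^ (3 : ℝ) * T ^ (3 : ℝ) * T * T ^ (-(20 : ℝ)) := by
          have e1 : |f n| * |g k| ≤ T ^ (3 : ℝ) * T ^ (3 : ℝ) :=
            mul_le_mul (hf n) (hg k) (abs_nonneg _) (by positivity)
          gcongr

/-- MV2. -/
theorem mv2 (_hG : GaussStatement) (hDD : DDStatement) : Mv2Statement := by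
  obtain ⟨-, -, h3, h4⟩ := hDD
  intro δ hδ0 hδ1
  have hev := (h3.and (h4 (1 - δ) 20 (by linarith))).and (eventually_ge_atTop (4 : ℝ))
  obtain ⟨T0, hT0⟩ := Filter.eventually_atTop.1 hev
  refine ⟨max 4 T0, lt_of_lt_of_le (by norm_num) (le_max_left _ _), ?_⟩
  intro T hT f g hf hg
  obtain ⟨⟨⟨-, hD1, hcG, hcT⟩, hexp⟩, hT4⟩ := hT0 T ((le_max_right _ _).trans hT)
  have hTpos : 0 < T := by linarith
  have hD : 0 < DD T := by linarith
  set X : ℝ := T ^ (1 - δ) with hX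
  have hre : ∀ t : ℝ, (dpoly f X (1 / 2 + t * I) *
      (starRingEnd ℂ) (dpoly g X (1 / 2 + t * I))).re * MS.wt T t =
      (dpoly f X (1 / 2 + t * I) *
      (starRingEnd ℂ) (dpoly g X (1 / 2 + t * I)) * ((MS.wt T t : ℝ) : ℂ)).re := by
    intro t
    rw [Complex.re_mul_ofReal]
  have hint := prod_int f g X hD
  have hint' : Integrable (fun t : ℝ => (dpoly f X (1 / 2 + t * I) *
      (starRingEnd ℂ) (dpoly g X (1 / 2 + t * I))).re * MS.wt T t) := by
    refine hint.re.congr (Filter.Eventually.of_forall fun t => ?_)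
    exact (hre t).symm
  refine ⟨hint', ?_⟩
  have hInt : ∫ t : ℝ, (dpoly f X (1 / 2 + t * I) *
      (starRingEnd ℂ) (dpoly g X (1 / 2 + t * I))).re * MS.wt T t =
      (∫ t : ℝ, dpoly f X (1 / 2 + t * I) *
      (starRingEnd ℂ) (dpoly g X (1 / 2 + t * I)) * ((MS.wt T t : ℝ) : ℂ)).re := by
    simp_rw [hre]
    exact integral_re hint
  have hmean := mean_eq f g X hD
  set N := ⌊X⌋₊ with hN
  have hNT : (N : ℝ) ≤ T := by
    have h1 : (N : ℝ) ≤ T ^ (1 - δ) := Nat.floor_le (by positivity)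
    have h2 : T ^ (1 - δ) ≤ T ^ (1 : ℝ) :=
      Real.rpow_le_rpow_of_exponent_le (by linarith) (by linarith)
    rw [Real.rpow_one] at h2
    linarith
  have hdiff : (1 / (2 * Real.pi)) * (∫ t : ℝ, (dpoly f X (1 / 2 + t * I) *
      (starRingEnd ℂ) (dpoly g X (1 / 2 + t * I))).re * MS.wt T t) -
      cG T * ∑ n ∈ Finset.Icc 1 N, f n * g n / (n : ℝ) =
      (∑ n ∈ Finset.Icc 1 N, ∑ k ∈ Finset.Icc 1 N, (((f n * g k / k : ℝ) : ℂ) *
        ((cG T : ℂ) * Complex.exp (-(1 / 2 + T * I) * Real.log ((n : ℝ) / k) -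
        (DD T) ^ 2 * (Real.log ((n : ℝ) / k)) ^ 2 / 4)) -
        (if n = k then ((cG T * (f n * g n / (n : ℝ)) : ℝ) : ℂ) else 0))).re := by
    have h1 : (∑ n ∈ Finset.Icc 1 N, ∑ k ∈ Finset.Icc 1 N, (((f n * g k / k : ℝ) : ℂ) *
        ((cG T : ℂ) * Complex.exp (-(1 / 2 + T * I) * Real.log ((n : ℝ) / k) -
        (DD T) ^ 2 * (Real.log ((n : ℝ) / k)) ^ 2 / 4)) -
        (if n = k then ((cG T * (f n * g n / (n : ℝ)) : ℝ) : ℂ) else 0))) =
        (1 / (2 * Real.pi) : ℂ) * (∫ t : ℝ, dpoly f X (1 / 2 + t * I) *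
          (starRingEnd ℂ) (dpoly g X (1 / 2 + t * I)) * ((MS.wt T t : ℝ) : ℂ)) -
        ((cG T * ∑ n ∈ Finset.Icc 1 N, f n * g n / (n : ℝ) : ℝ) : ℂ) := by
      rw [hmean]
      simp_rw [Finset.sum_sub_distrib]
      congr 1
      rw [Finset.mul_sum]
      push_cast
      refine Finset.sum_congr rfl fun n hn => ?_
      rw [Finset.sum_ite_eq, if_pos hn]
    rw [h1, Complex.sub_re, Complex.ofReal_re]
    congr 1
    rw [hInt]
    have h2 : (1 / (2 * Real.pi) : ℂ) = ((1 / (2 * Real.pi) : ℝ) : ℂ) := by push_cast; rfl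
    rw [h2, Complex.re_ofReal_mul]
  rw [hdiff]
  refine (Complex.abs_re_le_norm _).trans ((norm_sum_le _ _).trans ?_)
  have hstep : ∀ n ∈ Finset.Icc 1 N, ‖∑ k ∈ Finset.Icc 1 N, (((f n * g k / k : ℝ) : ℂ) *
        ((cG T : ℂ) * Complex.exp (-(1 / 2 + T * I) * Real.log ((n : ℝ) / k) -
        (DD T) ^ 2 * (Real.log ((n : ℝ) / k)) ^ 2 / 4)) -
        (if n = k then ((cG T * (f n * g n / (n : ℝ)) : ℝ) : ℂ) else 0))‖ ≤
      N * (T ^ (3 : ℝ) * T ^ (3 : ℝ) * T * T ^ (-(20 : ℝ))) := by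
    intro n hn
    refine (norm_sum_le _ _).trans ?_
    refine (Finset.sum_le_sum fun k hk =>
      term_le (by linarith) hcG hcT hexp (fun m => (hf m).1) (fun m => (hg m).1) hn hk).trans ?_
    rw [Finset.sum_const, Nat.card_Icc, nsmul_eq_mul, Nat.add_sub_cancel]
  refine (Finset.sum_le_sum hstep).trans ?_
  rw [Finset.sum_const, Nat.card_Icc, nsmul_eq_mul, Nat.add_sub_cancel]
  have hpow : T ^ (3 : ℝ) * T ^ (3 : ℝ) * T * T ^ (-(20 : ℝ)) * T ^ 2 ≤ 1 / T := by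
    have e1 : T ^ (3 : ℝ) * T ^ (3 : ℝ) * T * T ^ (-(20 : ℝ)) * T ^ 2 = T ^ (-11 : ℝ) := by
      have e2 : (T : ℝ) = T ^ (1 : ℝ) := (Real.rpow_one T).symm
      have e3 : T ^ 2 = T ^ (2 : ℝ) := by
        rw [← Real.rpow_natCast]; norm_num
      rw [e3]
      nth_rewrite 3 [e2]
      rw [← Real.rpow_add hTpos, ← Real.rpow_add hTpos, ← Real.rpow_add hTpos,
        ← Real.rpow_add hTpos]
      congr 1
      norm_num
    rw [e1, one_div, ← Real.rpow_neg_one]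
    exact Real.rpow_le_rpow_of_exponent_le (by linarith) (by norm_num)
  have e1 : 0 ≤ T ^ (3 : ℝ) * T ^ (3 : ℝ) * T * T ^ (-(20 : ℝ)) := by positivity
  have e2 : (N : ℝ) * N ≤ T ^ 2 := by
    have : (0 : ℝ) ≤ N := Nat.cast_nonneg N
    nlinarith
  calc (N : ℝ) * (N * (T ^ (3 : ℝ) * T ^ (3 : ℝ) * T * T ^ (-(20 : ℝ))))
      = (T ^ (3 : ℝ) * T ^ (3 : ℝ) * T * T ^ (-(20 : ℝ))) * (N * N) := by ring
    _ ≤ (T ^ (3 : ℝ) * T ^ (3 : ℝ) * T * T ^ (-(20 : ℝ))) * T ^ 2 :=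
        mul_le_mul_of_nonneg_left e2 e1
    _ ≤ 1 / T := hpow

end Pool.Agent.Lib.MP_6bc78b_nt.MS.GL.H76
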